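import Pool.Agent.W4.VC.Stms

/-!
# Few values of a cubic form are divisible by the square of a large prime
-/

set_option autoImplicit false

namespace Pool.Agent.W320.VC

open Finset Polynomial Pool.Agent.W4.CF Pool.Agent.W4.VC

/-- size of the form -/
theorem G_le (A B u v : ℤ) {Y : ℝ} (hY : 0 ≤ Y) (hu : |(u : ℝ)| ≤ Y) (hv : |(v : ℝ)| ≤ Y) :
    |((G A B u v : ℤ) : ℝ)| ≤ (1 + |(A : ℝ)| + |(B : ℝ)|) * Y ^ 3 := by
  unfold G
  push_cast
  have h1 : |(u : ℝ) ^ 3| ≤ Y ^ 3 := by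
    rw [abs_pow]
    exact pow_le_pow_left₀ (abs_nonneg _) hu 3
  have h2 : |(A : ℝ) * u * v ^ 2| ≤ |(A : ℝ)| * Y ^ 3 := by
    rw [abs_mul, abs_mul, abs_pow]
    have : |(u : ℝ)| * |(v : ℝ)| ^ 2 ≤ Y * Y ^ 2 :=
      mul_le_mul hu (pow_le_pow_left₀ (abs_nonneg _) hv 2) (by positivity) hY
    calc |(A : ℝ)| * |(u : ℝ)| * |(v : ℝ)| ^ 2 = |(A : ℝ)| * (|(u : ℝ)| * |(v : ℝ)| ^ 2) := by ring
      _ ≤ |(A : ℝ)| * (Y * Y ^ 2) := mul_le_mul_of_nonneg_left this (abs_nonneg _)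
      _ = _ := by ring
  have h3 : |(B : ℝ) * v ^ 3| ≤ |(B : ℝ)| * Y ^ 3 := by
    rw [abs_mul, abs_pow]
    exact mul_le_mul_of_nonneg_left (pow_le_pow_left₀ (abs_nonneg _) hv 3) (abs_nonneg _)
  calc |(u : ℝ) ^ 3 - A * u * v ^ 2 - B * v ^ 3|
      ≤ |(u : ℝ) ^ 3 - A * u * v ^ 2| + |(B : ℝ) * v ^ 3| := abs_sub _ _
    _ ≤ (|(u : ℝ) ^ 3| + |(A : ℝ) * u * v ^ 2|) + |(B : ℝ) * v ^ 3| :=
        add_le_add (abs_sub _ _) le_rfl
    _ ≤ (Y ^ 3 + |(A : ℝ)| * Y ^ 3) + |(B : ℝ)| * Y ^ 3 := by linarith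
    _ = _ := by ring

theorem t_BIG (hR : S_RED2) (hH : S_HB) : S_BIG := by
  classical
  intro a b c d hdisc ε hε
  obtain ⟨A, B, M, C1, φ, hAB, hM, hC1, hφ⟩ := hR a b c d hdisc
  obtain ⟨i, hi, hHB⟩ := hH A B hAB
  obtain ⟨C5, hC5, hcount⟩ := hHB 2 (ε / 2) (by norm_num) (by positivity)
  obtain ⟨C2, hC2⟩ : ∃ C2 : ℝ, C2 = 1 + |(A : ℝ)| + |(B : ℝ)| := ⟨_, rfl⟩
  have hC21 : 1 ≤ C2 := by
    have := abs_nonneg (A : ℝ)
    have := abs_nonneg (B : ℝ)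
    linarith
  obtain ⟨C3, hC3⟩ : ∃ C3 : ℝ, C3 = C2 * C1 ^ 3 := ⟨_, rfl⟩
  have hC31 : 1 ≤ C3 := by
    rw [hC3]
    exact one_le_mul_of_one_le_of_one_le hC21 (one_le_pow₀ hC1)
  obtain ⟨C6, hC6⟩ : ∃ C6 : ℝ, C6 = C3 * (C5 * (C1 * C3) ^ (ε / 2) * C3) := ⟨_, rfl⟩
  have hC30 : 0 < C3 := by linarith
  have hC10 : 0 < C1 := by linarith
  have hC60 : 0 < C6 := by rw [hC6]; positivity
  have hMi : (1 : ℝ) ≤ M := by exact_mod_cast hM
  have hii : (1 : ℝ) ≤ i := by exact_mod_cast hi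
  refine ⟨M + i + C3 + 2 * C6, by positivity, ?_⟩
  intro Y hY s hs
  have hY0 : 0 < Y := by linarith
  obtain ⟨y, hy⟩ : ∃ y : ℝ, y = Y ^ ((1 : ℝ) / 3) := ⟨_, rfl⟩
  have hy1 : 1 ≤ y := by rw [hy]; exact Real.one_le_rpow hY (by norm_num)
  have hy0 : 0 < y := by linarith
  have hy3 : y ^ 3 = Y := by
    rw [hy, ← Real.rpow_natCast, ← Real.rpow_mul hY0.le]
    norm_num
  have hy4 : Y ^ ((4 : ℝ) / 3) = y ^ 4 := by
    rw [hy, ← Real.rpow_natCast, ← Real.rpow_mul hY0.le]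
    norm_num
  rw [hy4] at hs
  obtain ⟨Z1, hZ1⟩ : ∃ Z1 : ℝ, Z1 = C3 * Y ^ ((3 : ℝ) / 2) := ⟨_, rfl⟩
  have hY32 : 1 ≤ Y ^ ((3 : ℝ) / 2) := Real.one_le_rpow hY (by norm_num)
  have hZ11 : 1 ≤ Z1 := by rw [hZ1]; exact one_le_mul_of_one_le_of_one_le hC31 hY32
  have hZsq : C3 * Y ^ 3 ≤ Z1 ^ 2 := by
    have e : (Y ^ ((3 : ℝ) / 2)) ^ 2 = Y ^ 3 := by
      rw [← Real.rpow_natCast, ← Real.rpow_mul hY0.le]
      norm_num
    rw [hZ1, mul_pow, e]
    apply mul_le_mul_of_nonneg_right _ (by positivity)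
    nlinarith
  have hZ23 : Z1 ^ ((2 : ℝ) / 3) ≤ C3 * Y := by
    rw [hZ1, Real.mul_rpow hC30.le (by positivity), ← Real.rpow_mul hY0.le]
    have e1 : (3 : ℝ) / 2 * (2 / 3) = 1 := by norm_num
    rw [e1, Real.rpow_one]
    apply mul_le_mul_of_nonneg_right _ hY0.le
    calc C3 ^ ((2 : ℝ) / 3) ≤ C3 ^ (1 : ℝ) :=
          Real.rpow_le_rpow_of_exponent_le hC31 (by norm_num)
      _ = C3 := Real.rpow_one _
  -- the sets for the values of `c`
  set T : ℕ → Finset (ℤ × ℤ) := fun e => (s.image φ).filter (fun q => ∃ z : ℕ, 1 ≤ z ∧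
    (z : ℝ) ≤ Z1 ∧ Nat.Coprime z (i * e) ∧ (G A B q.1 q.2).natAbs = e * z ^ 2) with hT
  have hbox : ∀ q ∈ s.image φ, IsCoprime q.1 q.2 ∧ |(q.1 : ℝ)| ≤ C1 * Y ∧ |(q.2 : ℝ)| ≤ C1 * Y := by
    intro q hq
    obtain ⟨p, hp, rfl⟩ := Finset.mem_image.1 hq
    obtain ⟨⟨h1, h2, h3, _⟩, h4, _⟩ := hs p hp
    obtain ⟨g1, _, g3, _, _⟩ := hφ p h1 h4
    have g4 : C1 * max |(p.1 : ℝ)| |(p.2 : ℝ)| ≤ C1 * Y :=
      mul_le_mul_of_nonneg_left (max_le h2 h3) hC10.le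
    exact ⟨g1, ((le_max_left _ _).trans g3).trans g4, ((le_max_right _ _).trans g3).trans g4⟩
  have hsub : s.image φ ⊆ (Finset.Icc 1 ⌊C3 * y⌋₊).biUnion T := by
    intro q hq
    obtain ⟨_, b1, b2⟩ := hbox q hq
    have hq' := hq
    obtain ⟨p, hp, rfl⟩ := Finset.mem_image.1 hq
    obtain ⟨⟨h1, h2, h3, _⟩, h4, l, hl, hlC, hld⟩ := hs p hp
    obtain ⟨g1, g2, _, g4, _⟩ := hφ p h1 h4
    have hy41 : 1 ≤ y ^ 4 := one_le_pow₀ hy1
    have hbig : (M + i + C3 + 2 * C6 : ℝ) ≤ (M + i + C3 + 2 * C6) * y ^ 4 :=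
      le_mul_of_one_le_right (by positivity) hy41
    have hlM : (M : ℝ) < l := by linarith
    have hli : (i : ℝ) < l := by linarith
    have hlM' : M < l := by exact_mod_cast hlM
    have hli' : i < l := by exact_mod_cast hli
    have hdM : ¬ l ∣ M := fun h => absurd (Nat.le_of_dvd (by omega) h) (by omega)
    have hdi : ¬ l ∣ i := fun h => absurd (Nat.le_of_dvd (by omega) h) (by omega)
    have hd2 := g4 l hl hdM 2 hld
    have hd2' : l ^ 2 ∣ (G A B (φ p).1 (φ p).2).natAbs := by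
      have := Int.natAbs_dvd_natAbs.2 hd2
      rwa [Int.natAbs_pow, Int.natAbs_natCast] at this
    obtain ⟨e, he⟩ := hd2'
    have hg0 : (G A B (φ p).1 (φ p).2).natAbs ≠ 0 := Int.natAbs_ne_zero.2 g2
    have he0 : 1 ≤ e := by
      rcases Nat.eq_zero_or_pos e with h | h
      · rw [h, mul_zero] at he
        exact absurd he hg0
      · exact h
    have hl0 : (0 : ℝ) < l := by exact_mod_cast hl.pos
    have hgle : ((G A B (φ p).1 (φ p).2).natAbs : ℝ) ≤ C3 * Y ^ 3 := by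
      have h5 := G_le A B (φ p).1 (φ p).2 (Y := C1 * Y) (by positivity) b1 b2
      rw [← hC2] at h5
      rw [Nat.cast_natAbs, Int.cast_abs]
      calc _ ≤ C2 * (C1 * Y) ^ 3 := h5
        _ = C3 * Y ^ 3 := by rw [hC3]; ring
    have hel : (e : ℝ) * (l : ℝ) ^ 2 ≤ C3 * Y ^ 3 := by
      rw [he] at hgle
      push_cast at hgle
      linarith
    have he1 : (1 : ℝ) ≤ e := by exact_mod_cast he0
    have hly : y ^ 4 ≤ (l : ℝ) := by
      have : y ^ 4 ≤ (M + i + C3 + 2 * C6) * y ^ 4 :=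
        le_mul_of_one_le_left (by positivity) (by linarith)
      linarith
    have hec : (e : ℝ) ≤ C3 * y := by
      have h5 : (e : ℝ) * (y ^ 4) ^ 2 ≤ C3 * (y ^ 3) ^ 3 := by
        rw [hy3]
        refine le_trans ?_ hel
        exact mul_le_mul_of_nonneg_left (pow_le_pow_left₀ (by positivity) hly 2) (by positivity)
      have h6 : (e : ℝ) * y ^ 8 ≤ (C3 * y) * y ^ 8 := by
        calc (e : ℝ) * y ^ 8 = (e : ℝ) * (y ^ 4) ^ 2 := by ring
          _ ≤ C3 * (y ^ 3) ^ 3 := h5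
          _ = (C3 * y) * y ^ 8 := by ring
      exact le_of_mul_le_mul_right h6 (by positivity)
    have hlZ : (l : ℝ) ≤ Z1 := by
      have h5 : (l : ℝ) ^ 2 ≤ Z1 ^ 2 := by
        refine le_trans ?_ hZsq
        refine le_trans ?_ hel
        exact le_mul_of_one_le_left (by positivity) he1
      exact le_of_sq_le_sq h5 (by linarith)
    have hde : ¬ l ∣ e := by
      intro h
      have h5 : l ≤ e := Nat.le_of_dvd (by omega) h
      have h6 : (l : ℝ) ≤ e := by exact_mod_cast h5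
      have h7 : (l : ℝ) ≤ C3 * y := h6.trans hec
      have h8 : C3 * y < l := by
        have h9 : C3 * y ≤ C3 * y ^ 4 := by
          apply mul_le_mul_of_nonneg_left _ hC30.le
          calc y = y ^ 1 := (pow_one y).symm
            _ ≤ y ^ 4 := pow_le_pow_right₀ hy1 (by norm_num)
        have h10 : C3 * y ^ 4 ≤ (M + i + C3 + 2 * C6) * y ^ 4 := by
          apply mul_le_mul_of_nonneg_right _ (by positivity)
          linarith
        linarith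
      linarith
    have hcop : Nat.Coprime l (i * e) := by
      rw [Nat.Prime.coprime_iff_not_dvd hl, hl.dvd_mul]
      tauto
    rw [Finset.mem_biUnion]
    refine ⟨e, ?_, ?_⟩
    · rw [Finset.mem_Icc]
      exact ⟨he0, Nat.le_floor hec⟩
    · rw [hT]
      exact Finset.mem_filter.2 ⟨hq', l, hl.pos, hlZ, hcop, by rw [he]; ring⟩
  have hTc : ∀ e ∈ Finset.Icc 1 ⌊C3 * y⌋₊, ((T e).card : ℝ) ≤
      C5 * (C1 * C3) ^ (ε / 2) * C3 * (Y ^ ε * Y) := by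
    intro e he
    have he := Finset.mem_Icc.1 he
    have hC1Y : 1 ≤ C1 * Y := one_le_mul_of_one_le_of_one_le hC1 hY
    have h1 := hcount (C1 * Y) Z1 hC1Y hZ11 e he.1 (T e) (by
      intro q hq
      obtain ⟨h2, z, h3, h4, h5, h6⟩ := Finset.mem_filter.1 hq
      obtain ⟨b0, b1, b2⟩ := hbox q h2
      exact ⟨b0, b1, b2, z, h3, h4, h5, h6⟩)
    have hey : (e : ℝ) ≤ C3 * y := by
      have : (⌊C3 * y⌋₊ : ℝ) ≤ C3 * y := Nat.floor_le (by positivity)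
      have h2 : (e : ℝ) ≤ (⌊C3 * y⌋₊ : ℝ) := by exact_mod_cast he.2
      linarith
    have hyY : y ≤ Y := by
      rw [← hy3]
      calc y = y ^ 1 := (pow_one y).symm
        _ ≤ y ^ 3 := pow_le_pow_right₀ hy1 (by norm_num)
    have h2 : C1 * Y * e ≤ (C1 * C3) * Y ^ (2 : ℝ) := by
      have h3 : (e : ℝ) ≤ C3 * Y := hey.trans (mul_le_mul_of_nonneg_left hyY hC30.le)
      rw [Real.rpow_two]
      calc C1 * Y * e ≤ C1 * Y * (C3 * Y) := mul_le_mul_of_nonneg_left h3 (by positivity)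
        _ = _ := by ring
    have h4 : (C1 * Y * e) ^ (ε / 2) ≤ (C1 * C3) ^ (ε / 2) * Y ^ ε := by
      calc (C1 * Y * e) ^ (ε / 2) ≤ ((C1 * C3) * Y ^ (2 : ℝ)) ^ (ε / 2) :=
            Real.rpow_le_rpow (by positivity) h2 (by positivity)
        _ = (C1 * C3) ^ (ε / 2) * Y ^ ε := by
            rw [Real.mul_rpow (by positivity) (by positivity), ← Real.rpow_mul hY0.le]
            congr 2
            ring
    calc ((T e).card : ℝ) ≤ C5 * (C1 * Y * e) ^ (ε / 2) * Z1 ^ ((2 : ℝ) / 3) := h1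
      _ ≤ C5 * ((C1 * C3) ^ (ε / 2) * Y ^ ε) * (C3 * Y) := by
          apply mul_le_mul _ hZ23 (by positivity) (by positivity)
          exact mul_le_mul_of_nonneg_left h4 hC5.le
      _ = _ := by ring
  have hcard : ((s.image φ).card : ℝ) ≤ C6 * (y * (Y ^ ε * Y)) := by
    have h1 : ((s.image φ).card : ℝ) ≤ ∑ e ∈ Finset.Icc 1 ⌊C3 * y⌋₊, ((T e).card : ℝ) := by
      have := (Finset.card_le_card hsub).trans Finset.card_biUnion_le
      exact_mod_cast this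
    refine h1.trans ((Finset.sum_le_sum hTc).trans ?_)
    rw [Finset.sum_const, Nat.card_Icc, Nat.add_sub_cancel, nsmul_eq_mul]
    have h2 : (⌊C3 * y⌋₊ : ℝ) ≤ C3 * y := Nat.floor_le (by positivity)
    calc (⌊C3 * y⌋₊ : ℝ) * (C5 * (C1 * C3) ^ (ε / 2) * C3 * (Y ^ ε * Y))
        ≤ (C3 * y) * (C5 * (C1 * C3) ^ (ε / 2) * C3 * (Y ^ ε * Y)) :=
          mul_le_mul_of_nonneg_right h2 (by positivity)
      _ = _ := by rw [hC6]; ring
  have hfib : s.card ≤ 2 * (s.image φ).card := by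
    apply Finset.card_le_mul_card_image
    intro q hq
    obtain ⟨p, hp, rfl⟩ := Finset.mem_image.1 hq
    obtain ⟨⟨h1, _, _, _⟩, h4, _⟩ := hs p hp
    obtain ⟨_, _, _, _, g5⟩ := hφ p h1 h4
    have : s.filter (fun a => φ a = φ p) ⊆ {p, (-p.1, -p.2)} := by
      intro p' hp'
      obtain ⟨h5, h6⟩ := Finset.mem_filter.1 hp'
      have := g5 p' (hs p' h5).1.1 h6.symm
      rw [Finset.mem_insert, Finset.mem_singleton]
      exact this
    exact (Finset.card_le_card this).trans Finset.card_le_two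
  have hfib' : (s.card : ℝ) ≤ 2 * ((s.image φ).card : ℝ) := by exact_mod_cast hfib
  have hfin : Y ^ ((4 : ℝ) / 3 + ε) = y * (Y ^ ε * Y) := by
    rw [Real.rpow_add hY0, hy4]
    calc y ^ 4 * Y ^ ε = y * (Y ^ ε * y ^ 3) := by ring
      _ = _ := by rw [hy3]
  rw [hfin]
  have hpos : 0 ≤ y * (Y ^ ε * Y) := by positivity
  calc (s.card : ℝ) ≤ 2 * (C6 * (y * (Y ^ ε * Y))) := by linarith
    _ = (2 * C6) * (y * (Y ^ ε * Y)) := by ring
    _ ≤ (M + i + C3 + 2 * C6) * (y * (Y ^ ε * Y)) := by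
        apply mul_le_mul_of_nonneg_right _ hpos
        linarith

end Pool.Agent.W320.VC
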